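import Pool.Agent.H63.PU.Targets

/-!
Modules PHIM, PHIJ (MP_6ed97a_co): monotonicity of the potential and the gain of a new edge.
-/

namespace Pool.Agent.H2.PU

open Pool.Agent.H63.PU Pool.Agent.H53.PK

lemma nx_mem {n v : ℕ} (hv : v ∈ Finset.Icc 1 n) : nx n v ∈ Finset.Icc 1 n := by
  rw [Finset.mem_Icc] at *
  unfold nx
  split_ifs <;> omega

lemma nx_inj {n u v : ℕ} (hu : u ∈ Finset.Icc 1 n) (hv : v ∈ Finset.Icc 1 n)
    (h : nx n u = nx n v) : u = v := by
  rw [Finset.mem_Icc] at *
  unfold nx at h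
  split_ifs at h <;> omega

lemma mem_missing {n : ℕ} {p : ℕ → Prop} {v : ℕ} :
    v ∈ missing n p ↔ v ∈ Finset.Icc 1 n ∧ ¬ p v := by
  classical
  unfold missing
  rw [Finset.mem_filter]

lemma mem_iso {n : ℕ} {p : ℕ → Prop} {v : ℕ} :
    v ∈ iso n p ↔ v ∈ Finset.Icc 1 n ∧ ¬ p v ∧ ¬ p (nx n v) := by
  classical
  unfold iso
  rw [Finset.mem_filter]

theorem phim : T_PHIM := by
  classical
  intro W n p q hW hpq
  have hms : missing n q ⊆ missing n p := fun v hv => by
    rw [mem_missing] at *
    exact ⟨hv.1, fun h => hv.2 (hpq v h)⟩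
  have his : iso n q ⊆ iso n p := fun v hv => by
    rw [mem_iso] at *
    exact ⟨hv.1, fun h => hv.2.1 (hpq v h), fun h => hv.2.2 (hpq _ h)⟩
  set D := missing n p \ missing n q with hD
  set E := iso n p \ iso n q with hE
  have hcD : D.card + (missing n q).card = (missing n p).card :=
    Finset.card_sdiff_add_card_eq_card hms
  have hcE : E.card + (iso n q).card = (iso n p).card :=
    Finset.card_sdiff_add_card_eq_card his
  set D' := (Finset.Icc 1 n).filter (fun v => nx n v ∈ D) with hD'
  have hcD' : D'.card ≤ D.card := by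
    apply Finset.card_le_card_of_injOn (nx n)
    · intro v hv
      exact (Finset.mem_filter.1 hv).2
    · intro u hu v hv h
      exact nx_inj (Finset.mem_filter.1 hu).1 (Finset.mem_filter.1 hv).1 h
  have hED : E ⊆ D ∪ D' := by
    intro v hv
    rw [hE, Finset.mem_sdiff, mem_iso, mem_iso] at hv
    obtain ⟨⟨h1, h2, h3⟩, h4⟩ := hv
    rw [Finset.mem_union]
    by_cases h5 : q v
    · left
      rw [hD, Finset.mem_sdiff, mem_missing, mem_missing]
      exact ⟨⟨h1, h2⟩, fun h => h.2 h5⟩
    · right
      have h6 : q (nx n v) := by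
        by_contra h6
        exact h4 ⟨h1, h5, h6⟩
      rw [hD', Finset.mem_filter, hD, Finset.mem_sdiff, mem_missing, mem_missing]
      exact ⟨h1, ⟨nx_mem h1, h3⟩, fun h => h.2 h6⟩
  have hEc : E.card ≤ 2 * D.card := by
    have := (Finset.card_le_card hED).trans (Finset.card_union_le _ _)
    omega
  have hFB : (W.F : ℤ) ≤ W.B := by exact_mod_cast hW.FB
  have hBF : (W.B : ℤ) ≤ 2 * W.F := by exact_mod_cast hW.BF
  unfold phi
  have e1 : ((missing n p).card : ℤ) = D.card + (missing n q).card := by exact_mod_cast hcD.symm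
  have e2 : ((iso n p).card : ℤ) = E.card + (iso n q).card := by exact_mod_cast hcE.symm
  have e3 : (E.card : ℤ) ≤ 2 * D.card := by exact_mod_cast hEc
  have e4 : (0 : ℤ) ≤ D.card := by positivity
  rw [e1, e2]
  nlinarith [mul_nonneg (sub_nonneg.2 hFB) (sub_nonneg.2 e3), mul_nonneg (sub_nonneg.2 hBF) e4]

theorem phij : T_PHIJ := by
  classical
  intro W n y p ka kb hW hn hy1 hyn hpy hka hkb
  have hyI : y ∈ Finset.Icc 1 n := Finset.mem_Icc.2 ⟨hy1, hyn⟩
  set q : ℕ → Prop := fun v => p v ∨ v = y with hq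
  have hm : missing n q = (missing n p).erase y := by
    ext v
    rw [Finset.mem_erase, mem_missing, mem_missing]
    simp only [hq]
    tauto
  have hym : y ∈ missing n p := mem_missing.2 ⟨hyI, hpy⟩
  have hcm : (missing n q).card + 1 = (missing n p).card := by
    rw [hm]; exact Finset.card_erase_add_one hym
  have his : iso n q ⊆ iso n p := fun v hv => by
    rw [mem_iso] at *
    exact ⟨hv.1, fun h => hv.2.1 (Or.inl h), fun h => hv.2.2 (Or.inl h)⟩
  set E := iso n p \ iso n q with hE
  have hcE : E.card + (iso n q).card = (iso n p).card :=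
    Finset.card_sdiff_add_card_eq_card his
  have hEmem : ∀ v ∈ E, (v = y ∧ kb = .s) ∨ (nx n v = y ∧ ka = .s) := by
    intro v hv
    rw [hE, Finset.mem_sdiff, mem_iso, mem_iso] at hv
    obtain ⟨⟨h1, h2, h3⟩, h4⟩ := hv
    by_cases h5 : v = y
    · left
      refine ⟨h5, ?_⟩
      by_contra h6
      have := hkb h6
      rw [h5] at h3
      exact h3 this
    · right
      have h6 : nx n v = y := by
        by_contra h6
        apply h4
        refine ⟨h1, ?_, ?_⟩
        · rintro (h | h)
          · exact h2 h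
          · exact h5 h
        · rintro (h | h)
          · exact h3 h
          · exact h6 h
      refine ⟨h6, ?_⟩
      by_contra h7
      obtain ⟨u, hu1, hun, hux, hpu⟩ := hka h7
      have : u = v := nx_inj (Finset.mem_Icc.2 ⟨hu1, hun⟩) h1 (by rw [hux, h6])
      exact h2 (this ▸ hpu)
  have hb1 : (E.filter (fun v => v = y ∧ kb = .s)).card ≤ if kb = .s then 1 else 0 := by
    split_ifs with h
    · rw [Finset.card_le_one]
      intro a ha b hb
      rw [(Finset.mem_filter.1 ha).2.1, (Finset.mem_filter.1 hb).2.1]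
    · rw [Nat.le_zero, Finset.card_eq_zero, Finset.filter_eq_empty_iff]
      intro v _ hv
      exact h hv.2
  have hb2 : (E.filter (fun v => nx n v = y ∧ ka = .s)).card ≤ if ka = .s then 1 else 0 := by
    split_ifs with h
    · rw [Finset.card_le_one]
      intro a ha b hb
      have ha' := Finset.mem_filter.1 ha
      have hb' := Finset.mem_filter.1 hb
      have haI : a ∈ Finset.Icc 1 n := (mem_iso.1 (Finset.mem_sdiff.1 ha'.1).1).1
      have hbI : b ∈ Finset.Icc 1 n := (mem_iso.1 (Finset.mem_sdiff.1 hb'.1).1).1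
      exact nx_inj haI hbI (by rw [ha'.2.1, hb'.2.1])
    · rw [Nat.le_zero, Finset.card_eq_zero, Finset.filter_eq_empty_iff]
      intro v _ hv
      exact h hv.2
  have hEc : E.card ≤ (if kb = Kd.s then 1 else 0) + (if ka = Kd.s then 1 else 0) := by
    have h1 : E = E.filter (fun v => v = y ∧ kb = .s) ∪ E.filter (fun v => nx n v = y ∧ ka = .s) := by
      rw [← Finset.filter_or]
      symm
      rw [Finset.filter_eq_self]
      exact hEmem
    have h2 : E.card ≤ _ := (le_of_eq (congrArg Finset.card h1)).trans (Finset.card_union_le _ _)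
    omega
  have hFB : (W.F : ℤ) ≤ W.B := by exact_mod_cast hW.FB
  have hBF := hW.BF
  have hgain : (gain W ka kb : ℤ) = W.B - (W.B - W.F) *
      ((if kb = Kd.s then 1 else 0) + (if ka = Kd.s then 1 else 0)) := by
    cases ka <;> cases kb <;> simp only [gain] <;> simp
    · rw [Nat.cast_sub hBF]; push_cast; ring
  unfold phi
  have e1 : ((missing n p).card : ℤ) = (missing n q).card + 1 := by exact_mod_cast hcm.symm
  have e2 : ((iso n p).card : ℤ) = E.card + (iso n q).card := by exact_mod_cast hcE.symm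
  have e3 : (E.card : ℤ) ≤ (if kb = Kd.s then 1 else 0) + (if ka = Kd.s then 1 else 0) := by
    exact_mod_cast hEc
  rw [hgain, e1, e2]
  nlinarith [mul_nonneg (sub_nonneg.2 hFB) (sub_nonneg.2 e3)]

end Pool.Agent.H2.PU
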