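import Pool.Agent.H2.PU.PHI

/-!
Module RUN (MP_6ed97a_co): symbolic sequences of flips.
-/

namespace Pool.Agent.H2.PU

open Pool.Agent.H63.PU Pool.Agent.H53.PK

lemma prefixReversal_perm (k : ℕ) (a : List ℕ) : (prefixReversal k a).Perm a := by
  unfold prefixReversal
  calc ((a.take k).reverse ++ a.drop k).Perm (a.take k ++ a.drop k) :=
        (List.reverse_perm _).append_right _
    _ = a := List.take_append_drop k a

lemma foldl_perm (ks : List ℕ) (a : List ℕ) :
    (ks.foldl (fun s k => prefixReversal k s) a).Perm a := by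
  induction ks generalizing a with
  | nil => exact List.Perm.refl _
  | cons k ks ih =>
    rw [List.foldl_cons]
    exact (ih _).trans (prefixReversal_perm k a)

lemma reach_perm {n m : ℕ} {a b : List ℕ} (h : Reach n m a b) : b.Perm a := by
  obtain ⟨ks, -, -, rfl⟩ := h
  exact foldl_perm ks a

lemma reach_trans {n m m' : ℕ} {a b c : List ℕ} (h : Reach n m a b) (h' : Reach n m' b c) :
    Reach n (m + m') a c := by
  obtain ⟨ks, h1, h2, rfl⟩ := h
  obtain ⟨ks', h1', h2', rfl⟩ := h'
  refine ⟨ks ++ ks', ?_, ?_, ?_⟩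
  · rw [List.length_append]; omega
  · intro k hk
    rcases List.mem_append.1 hk with hk | hk
    · exact h2 k hk
    · exact h2' k hk
  · rw [List.foldl_append]

lemma reach_mono {n m m' : ℕ} {a b : List ℕ} (h : Reach n m a b) (hm : m ≤ m') :
    Reach n m' a b := by
  obtain ⟨ks, h1, h2, h3⟩ := h
  exact ⟨ks, h1.trans hm, h2, h3⟩

lemma reach_refl (n m : ℕ) (a : List ℕ) : Reach n m a a :=
  ⟨[], Nat.zero_le _, by simp, rfl⟩

lemma run_add (W : Wts) (ks : List ℕ) : ∀ (is : List Item) (g : ℕ),
    run W ks is g = g + run W ks is 0 := by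
  induction ks with
  | nil => intro is g; simp [run]
  | cons k ks ih =>
    intro is g
    simp only [run]
    rw [ih _ (g + _), ih _ (0 + _)]
    omega

lemma infix_flatten {l : List ℕ} {L : List (List ℕ)} (h : l ∈ L) : l <:+: L.flatten := by
  induction L with
  | nil => simp at h
  | cons x L ih =>
    rw [List.flatten_cons]
    rcases List.mem_cons.1 h with h | h
    · subst h
      exact (List.prefix_append _ _).isInfix
    · exact (ih h).trans (List.suffix_append _ _).isInfix

lemma edgeR_edge {n v : ℕ} {R : List (Item × List ℕ)} (h : EdgeR n R v) :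
    Edge n (R.map Prod.snd).flatten v := by
  obtain ⟨x, hx, h⟩ := h
  have h1 : x.2 <:+: (R.map Prod.snd).flatten := infix_flatten (List.mem_map_of_mem hx)
  rcases h with h | h
  · exact Or.inl (h.trans h1)
  · exact Or.inr (h.trans h1)

theorem run' (hF : T_FLIP) (hM : T_PHIM) : T_RUN := by
  intro W n val ks
  induction ks with
  | nil =>
    intro R hW hn hval hperm hitem
    refine ⟨(R.map Prod.snd).flatten, reach_refl _ _ _, ?_⟩
    have h1 := hM W n (EdgeR n R) (Edge n (R.map Prod.snd).flatten) hW (fun v h => edgeR_edge h)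
    simpa [run] using h1
  | cons k ks ih =>
    intro R hW hn hval hperm hitem
    obtain ⟨R', h1, h2, h3, h4⟩ := hF W n val k R hW hn hval hperm hitem
    obtain ⟨b, h5, h6⟩ := ih R' hW hn hval ((reach_perm h2).trans hperm) h3
    refine ⟨b, ?_, ?_⟩
    · rw [List.length_cons, add_comm]
      exact reach_trans h2 h5
    · have e : run W (k :: ks) (R.map Prod.fst) 0 =
          (flipI W k (R.map Prod.fst)).2 + run W ks (R'.map Prod.fst) 0 := by
        simp only [run]
        rw [run_add, h1]
        omega
      rw [e]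
      push_cast
      linarith

/-- small potential: ten flips per unit of the potential -/
lemma small (hR : T_RED) (hFin : T_FIN) (h0 : T_PHI0) (W : Wts) (hW : W.Ok) (hB : W.B < 2 * W.F)
    (n : ℕ) (hn : 3 ≤ n) : ∀ (N : ℕ) (a : List ℕ), a.Perm (List.range' 1 n) →
    phi W n (Edge n a) ≤ N → Reach n (10 * N + 4) a (sortedStack n) := by
  intro N
  induction N with
  | zero =>
    intro a ha hphi
    by_cases hc : 2 ≤ (missing n (Edge n a)).card
    · obtain ⟨b, h1, h2⟩ := hR W n a hW hB hn ha hc
      have h3 := (h0 W n (Edge n b) hW (by omega)).1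
      push_cast at hphi
      omega
    · exact reach_mono (hFin n a hn ha (by omega)) (by omega)
  | succ N ih =>
    intro a ha hphi
    by_cases hc : 2 ≤ (missing n (Edge n a)).card
    · obtain ⟨b, h1, h2⟩ := hR W n a hW hB hn ha hc
      have h3 := ih b ((reach_perm h1).trans ha) (by push_cast at hphi; omega)
      exact reach_mono (reach_trans h1 h3) (by omega)
    · exact reach_mono (hFin n a hn ha (by omega)) (by omega)

theorem all (hR : T_RED) (hFin : T_FIN) (hRoot : T_ROOT) (h0 : T_PHI0) : T_ALL := by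
  intro W hW hB hS
  refine ⟨W.M * (10 * (40 * W.B) + 4), ?_⟩
  intro n a hn ha
  have key : ∀ (N : ℕ) (a : List ℕ), a.Perm (List.range' 1 n) → phi W n (Edge n a) ≤ N →
      ∃ m : ℕ, Reach n m a (sortedStack n) ∧
        (W.M : ℤ) * m ≤ phi W n (Edge n a) + (W.M * (10 * (40 * W.B) + 4) : ℕ) := by
    intro N
    induction N using Nat.strong_induction_on with
    | _ N ih =>
      intro a ha hphi
      obtain ⟨g1, g2, g3⟩ := h0 W n (Edge n a) hW (by omega)
      by_cases hc : 40 < (missing n (Edge n a)).card
      · obtain ⟨k, hk⟩ := hRoot n a hn ha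
        obtain ⟨m, b, h1, h2, h3⟩ := hS k n a hn ha hc hk
        have h4 := (h0 W n (Edge n b) hW (by omega)).1
        obtain ⟨N', hN'⟩ := Int.eq_ofNat_of_zero_le h4
        obtain ⟨m', h5, h6⟩ := ih N' (by omega) b ((reach_perm h1).trans ha) (by omega)
        refine ⟨m + m', reach_trans h1 h5, ?_⟩
        push_cast at *
        linarith
      · push Not at hc
        have h1 : phi W n (Edge n a) ≤ ((40 * W.B : ℕ) : ℤ) := by
          have h2 : (W.B : ℤ) * (missing n (Edge n a)).card ≤ W.B * 40 := by
            apply mul_le_mul_of_nonneg_left _ (by positivity)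
            exact_mod_cast hc
          push_cast
          linarith
        refine ⟨10 * (40 * W.B) + 4, small hR hFin h0 W hW hB n hn _ a ha h1, ?_⟩
        push_cast
        linarith
  obtain ⟨g1, g2, g3⟩ := h0 W n (Edge n a) hW (by omega)
  obtain ⟨N, hN⟩ := Int.eq_ofNat_of_zero_le g1
  obtain ⟨m, h1, h2⟩ := key N a ha (le_of_eq hN)
  refine ⟨m, h1, ?_⟩
  have h3 : ((W.M * m : ℕ) : ℤ) ≤ ((W.F * n + W.M * (10 * (40 * W.B) + 4) : ℕ) : ℤ) := by
    push_cast at *
    linarith
  exact_mod_cast h3

end Pool.Agent.H2.PU
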